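import Pool.Agent.Helper62.CS.Stmts

namespace Pool.Agent.Helper42.CS

open Classical Pool.Agent.Helper62.CS

/-- Two oracles that agree on all the queries of a run give the same run. -/
theorem run_agree (P : Prog) (O O' : Lang) (c0 : Cfg) (T : ℕ)
    (h : ∀ t < T, (qstr P ((step P O)^[t] c0) ∈ O ↔ qstr P ((step P O)^[t] c0) ∈ O')) :
    ∀ t ≤ T, (step P O)^[t] c0 = (step P O')^[t] c0 := by
  intro t
  induction t with
  | zero => intro _; rfl
  | succ t ih =>
    intro ht
    have h1 := ih (by omega)
    rw [Function.iterate_succ_apply', Function.iterate_succ_apply', ← h1]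
    have h2 := h t (by omega)
    unfold step
    have h3 : decide (qstr P ((step P O)^[t] c0) ∈ O)
        = decide (qstr P ((step P O)^[t] c0) ∈ O') := decide_eq_decide.mpr h2
    unfold step at h3
    rw [h3]

theorem accepts_agree (P : Prog) (O O' : Lang) (inp : List Str) (T : ℕ)
    (h : ∀ t < T, (qstr P ((step P O)^[t] (init inp)) ∈ O ↔
      qstr P ((step P O)^[t] (init inp)) ∈ O')) :
    (Accepts P O inp T ↔ Accepts P O' inp T) := by
  unfold Accepts
  rw [run_agree P O O' (init inp) T h T le_rfl]

/-- row LC1 -/
theorem st_LC1 : ST_LC1 := by
  intro P inp T O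
  refine ⟨(Finset.range T).image (fun t => qstr P ((step P O)^[t] (init inp))), ?_, ?_⟩
  · exact Finset.card_image_le.trans (by simp)
  · intro O' hO'
    apply accepts_agree
    intro t ht
    apply hO'
    rw [Finset.mem_image]
    exact ⟨t, Finset.mem_range.mpr ht, rfl⟩

/-- stacks grow by at most one symbol per step -/
theorem stepA_len (P : Prog) (a : Bool) (c : Cfg) (m : ℕ) (h : ∀ i, (c.st i).length ≤ m) :
    ∀ i, ((stepA P a c).st i).length ≤ m + 1 := by
  intro j
  unfold stepA
  split
  · rename_i i b n _
    show (Function.update c.st i (b :: c.st i) j).length ≤ m + 1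
    by_cases hj : j = i
    · subst hj
      rw [Function.update_self]
      have := h j
      simp only [List.length_cons]
      omega
    · rw [Function.update_of_ne hj]
      have := h j
      omega
  · rename_i i n f t _
    have hi := h i
    have hj0 := h j
    split
    · show (c.st j).length ≤ m + 1
      omega
    · rename_i l hl
      show (Function.update c.st i l j).length ≤ m + 1
      by_cases hj : j = i
      · subst hj
        rw [Function.update_self]
        rw [hl, List.length_cons] at hi
        omega
      · rw [Function.update_of_ne hj]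
        omega
    · rename_i l hl
      show (Function.update c.st i l j).length ≤ m + 1
      by_cases hj : j = i
      · subst hj
        rw [Function.update_self]
        rw [hl, List.length_cons] at hi
        omega
      · rw [Function.update_of_ne hj]
        omega
  · have := h j
    show (c.st j).length ≤ m + 1
    omega
  · have := h j
    omega

theorem init_len (inp : List Str) (l : ℕ) (h : ∀ x ∈ inp, x.length ≤ l) :
    ∀ i, ((init inp).st i).length ≤ l := by
  intro i
  show (inp.getD i []).length ≤ l
  by_cases hi : i < inp.length
  · rw [List.getD_eq_getElem _ _ hi]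
    exact h _ (List.getElem_mem hi)
  · rw [List.getD_eq_default _ _ (by omega)]
    simp

theorem run_len (P : Prog) (A : Lang) (inp : List Str) (l : ℕ) (h : ∀ x ∈ inp, x.length ≤ l)
    (t : ℕ) : ∀ i, (((step P A)^[t] (init inp)).st i).length ≤ l + t := by
  induction t with
  | zero => exact init_len inp l h
  | succ t ih =>
    rw [Function.iterate_succ_apply']
    exact stepA_len P _ _ (l + t) ih

theorem qstr_len (P : Prog) (c : Cfg) (m : ℕ) (h : ∀ i, (c.st i).length ≤ m) :
    (qstr P c).length ≤ m := by
  unfold qstr
  split
  · exact h _
  · simp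

theorem qstr_run_len (P : Prog) (A : Lang) (inp : List Str) (l : ℕ)
    (h : ∀ x ∈ inp, x.length ≤ l) (t : ℕ) :
    (qstr P ((step P A)^[t] (init inp))).length ≤ l + t :=
  qstr_len P _ _ (run_len P A inp l h t)

end Pool.Agent.Helper42.CS
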