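import Pool.Agent.Helper42.CS.LC1

namespace Pool.Agent.Helper42.CS

open Classical Pool.Agent.Helper62.CS

/-- row LC2 -/
theorem st_LC2 : ST_LC1 → ST_LC2 := by
  intro _ P inp T l k C hinp hC O
  have hlen : ∀ t < T, (qstr P ((step P (C O))^[t] (init inp))).length ≤ l + T := by
    intro t ht
    have := qstr_run_len P (C O) inp l hinp t
    omega
  choose! F hFcard hFagree using fun (u : Str) (hu : u.length ≤ l + T) => hC u hu O
  refine ⟨(Finset.range T).biUnion (fun t => F (qstr P ((step P (C O))^[t] (init inp)))), ?_, ?_⟩
  · have h1 := Finset.card_biUnion_le_card_mul (Finset.range T)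
      (fun t => F (qstr P ((step P (C O))^[t] (init inp)))) k ?_
    · simpa using h1
    · intro t ht
      exact hFcard _ (hlen t (Finset.mem_range.mp ht))
  · intro O' hO'
    apply accepts_agree
    intro t ht
    apply hFagree _ (hlen t ht) O'
    intro z hz
    apply hO'
    rw [Finset.mem_biUnion]
    exact ⟨t, Finset.mem_range.mpr ht, hz⟩

end Pool.Agent.Helper42.CS
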