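import Pool.Agent.Helper62.CS.Stmts

namespace Pool.Agent.Helper42.CS

open Classical Pool.Agent.Helper62.CS

/-- a code for instructions -/
def icode : Instr → ℕ × ℕ × Bool × ℕ × ℕ × ℕ
  | Instr.push i b n => (0, i, b, n, 0, 0)
  | Instr.pop i n f t => (1, i, false, n, f, t)
  | Instr.query i no yes => (2, i, false, no, yes, 0)
  | Instr.accept => (3, 0, false, 0, 0, 0)
  | Instr.reject => (4, 0, false, 0, 0, 0)

theorem icode_inj : Function.Injective icode := by
  intro a b h
  cases a <;> cases b <;> simp_all [icode]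

instance : Countable Instr := icode_inj.countable

theorem tri_countable : Countable Tri := by
  have h : Function.Injective (fun s : Tri => (s.P1, s.c1, s.P2, s.c2, s.P3, s.c3)) := by
    intro a b h
    cases a
    cases b
    simp_all
  exact h.countable

/-- row TRI -/
theorem st_TRI : ST_TRI := by
  refine ⟨?_, tri_countable⟩
  intro O L
  constructor
  · rintro ⟨B, ⟨C, ⟨P1, c1, h1⟩, P2, c2, h2⟩, P3, c3, h3⟩
    refine ⟨⟨P1, c1, P2, c2, P3, c3⟩, ?_⟩
    have hC : C = Tri.C ⟨P1, c1, P2, c2, P3, c3⟩ O := by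
      ext u
      exact h1 u
    have hB : B = Tri.B ⟨P1, c1, P2, c2, P3, c3⟩ O := by
      ext z
      rw [h2 z, hC]
      rfl
    ext x
    rw [h3 x, hB]
    rfl
  · rintro ⟨s, hs⟩
    refine ⟨s.B O, ⟨s.C O, ⟨s.P1, s.c1, fun u => Iff.rfl⟩, s.P2, s.c2, fun z => Iff.rfl⟩,
      s.P3, s.c3, ?_⟩
    intro x
    rw [hs]
    rfl

end Pool.Agent.Helper42.CS
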